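import Pool.Agent.H42.Spl2

open Pool.Agent.H42.Spl Pool.Agent.H42.PolD

/-- The statement of Q1 fails if `d < r` and holds if `u < g`, so it is independent of ZFC. -/
theorem Pool.Agent.Results.MP_ef395a_gt.Full.result :
    (dNum < rNum → ¬ProdQ) ∧ (uNum < gNum → ProdQ) :=
  ⟨neg, pos⟩
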